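import Pool.Agent.Helper57.PW.Defs

/-!
Module A of the formalisation for MP_124889_co: the theorem on hierarchical zonotopal spaces
(Theorem L).
-/

open MvPolynomial

namespace PoolPW

section ThmLAux

variable {V ι : Type*} [Fintype V]

omit [Fintype V] in
/-- value of a line polynomial -/
theorem thmL_line_eval (p : MvPolynomial V ℝ) (ξ η : V → ℝ) (t : ℝ) :
    (line p ξ η).eval t = eval (fun v => ξ v + η v * t) p := by
  unfold line
  induction p using MvPolynomial.induction_on with
  | C a => simp
  | add p q hp hq => simp [hp, hq]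
  | mul_X p v hp => simp [hp]

omit [Fintype V] in
theorem thmL_line_eval' (p : MvPolynomial V ℝ) (ξ η : V → ℝ) (t : ℝ) :
    (line p ξ η).eval t = eval (ξ + t • η) p := by
  rw [thmL_line_eval]
  congr 2
  funext v
  simp [mul_comm]

/-- a linear form -/
noncomputable def thmL_lf (β : V → ℝ) : (V → ℝ) →ₗ[ℝ] ℝ where
  toFun y := ∑ v, β v * y v
  map_add' x y := by simp [mul_add, Finset.sum_add_distrib]
  map_smul' c x := by
    simp only [Pi.smul_apply, smul_eq_mul, RingHom.id_apply, Finset.mul_sum]
    exact Finset.sum_congr rfl fun v _ => by ring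

theorem thmL_lf_apply (β y : V → ℝ) : thmL_lf β y = ∑ v, β v * y v := rfl

/-- the linear form as a polynomial -/
noncomputable def thmL_lp (β : V → ℝ) : MvPolynomial V ℝ := ∑ v, C (β v) * X v

theorem thmL_eval_lp (β y : V → ℝ) : eval y (thmL_lp β) = thmL_lf β y := by
  simp [thmL_lp, thmL_lf_apply]

theorem thmL_line_lp (β ξ η : V → ℝ) :
    line (thmL_lp β) ξ η = Polynomial.C (thmL_lf β ξ) + Polynomial.C (thmL_lf β η) * Polynomial.X := by
  apply Polynomial.funext
  intro t
  rw [thmL_line_eval', thmL_eval_lp, map_add, map_smul]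
  simp only [Polynomial.eval_add, Polynomial.eval_mul, Polynomial.eval_C, Polynomial.eval_X,
    smul_eq_mul]
  ring

omit [Fintype V] in
/-- two parameter family of lines: coefficients depend polynomially on the parameter -/
theorem thmL_param (q : MvPolynomial V ℝ) (ξ w η w' : V → ℝ) (n : ℕ) :
    ∃ R : Polynomial ℝ, ∀ ε : ℝ, R.eval ε = (line q (ξ + ε • w) (η + ε • w')).coeff n := by
  refine ⟨(aeval (fun v => Polynomial.C (Polynomial.C (ξ v) + Polynomial.C (w v) * Polynomial.X)
    + Polynomial.C (Polynomial.C (η v) + Polynomial.C (w' v) * Polynomial.X) * Polynomial.X) q :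
      Polynomial (Polynomial ℝ)).coeff n, ?_⟩
  intro ε
  have h : ∀ q : MvPolynomial V ℝ, Polynomial.map (Polynomial.evalRingHom ε)
      (aeval (fun v => Polynomial.C (Polynomial.C (ξ v) + Polynomial.C (w v) * Polynomial.X)
    + Polynomial.C (Polynomial.C (η v) + Polynomial.C (w' v) * Polynomial.X) * Polynomial.X) q :
      Polynomial (Polynomial ℝ)) = line q (ξ + ε • w) (η + ε • w') := by
    intro q
    unfold line
    induction q using MvPolynomial.induction_on with
    | C a => simp [Polynomial.algebraMap_eq]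
    | add p q hp hq => rw [map_add, Polynomial.map_add, hp, hq, map_add]
    | mul_X p v hp =>
      rw [map_mul, Polynomial.map_mul, hp, map_mul]
      congr 1
      simp only [aeval_X, Polynomial.map_add, Polynomial.map_mul, Polynomial.map_C,
        Polynomial.map_X, Polynomial.coe_evalRingHom, Polynomial.eval_add, Polynomial.eval_mul,
        Polynomial.eval_C, Polynomial.eval_X, Pi.add_apply, Pi.smul_apply, smul_eq_mul]
      rw [mul_comm (w v) ε, mul_comm (w' v) ε]
  rw [← h q, Polynomial.coeff_map]
  simp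

theorem thmL_zero_of_inf (R : Polynomial ℝ) (B : Finset ℝ) (h : ∀ ε, ε ∉ B → R.eval ε = 0) :
    R = 0 := by
  by_contra hR
  have : (Set.univ : Set ℝ) ⊆ (↑(B ∪ R.roots.toFinset) : Set ℝ) := by
    intro ε _
    by_cases hε : ε ∈ B
    · simp [hε]
    · simp [hR, h ε hε]
  exact (Set.infinite_univ (α := ℝ)) ((Finset.finite_toSet _).subset this)

/-- divisibility -/
theorem thmL_div (β w : V → ℝ) (p : MvPolynomial V ℝ) :
    ∃ q, p - aeval (fun v => X v - thmL_lp β * C (w v)) p = thmL_lp β * q := by
  induction p using MvPolynomial.induction_on with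
  | C a => exact ⟨0, by simp [MvPolynomial.algebraMap_eq]⟩
  | add p q hp hq =>
    obtain ⟨a, ha⟩ := hp
    obtain ⟨b, hb⟩ := hq
    refine ⟨a + b, ?_⟩
    rw [map_add, mul_add, ← ha, ← hb]; ring
  | mul_X p v hp =>
    obtain ⟨a, ha⟩ := hp
    refine ⟨a * X v + aeval (fun v => X v - thmL_lp β * C (w v)) p * C (w v), ?_⟩
    rw [map_mul, aeval_X, mul_add, ← mul_assoc, ← ha]; ring

theorem thmL_eval_sub (β w y : V → ℝ) (p : MvPolynomial V ℝ) :
    eval y (aeval (fun v => X v - thmL_lp β * C (w v)) p) = eval (y - thmL_lf β y • w) p := by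
  induction p using MvPolynomial.induction_on with
  | C a => simp [MvPolynomial.algebraMap_eq]
  | add p q hp hq => rw [map_add, map_add, hp, hq, map_add]
  | mul_X p v hp =>
    rw [map_mul, map_mul, hp, map_mul, aeval_X]
    simp [thmL_eval_lp]

open Classical in
theorem thmL_mono_coeff (b : ι → V → ℝ) (Y : Finset ι) (ξ η : V → ℝ) (n : ℕ)
    (hn : (Y.filter (fun i => thmL_lf (b i) η ≠ 0)).card < n) :
    (line (∏ j ∈ Y, thmL_lp (b j)) ξ η).coeff n = 0 := by
  have h1 : line (∏ j ∈ Y, thmL_lp (b j)) ξ η = ∏ j ∈ Y, line (thmL_lp (b j)) ξ η := by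
    unfold line
    rw [map_prod]
  rw [h1]
  apply Polynomial.coeff_eq_zero_of_natDegree_lt
  refine lt_of_le_of_lt (Polynomial.natDegree_prod_le _ _) (lt_of_le_of_lt ?_ hn)
  rw [Finset.card_filter]
  refine Finset.sum_le_sum fun j _ => ?_
  rw [thmL_line_lp]
  by_cases h : thmL_lf (b j) η = 0
  · simp [h]
  · rw [if_pos h]
    refine (Polynomial.natDegree_add_le _ _).trans (max_le ?_ ?_)
    · simp
    · exact (Polynomial.natDegree_C_mul_le _ _).trans Polynomial.natDegree_X_le

omit [Fintype V] in
theorem thmL_line_sub (p q : MvPolynomial V ℝ) (ξ η : V → ℝ) :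
    line (p - q) ξ η = line p ξ η - line q ξ η := by
  unfold line; rw [map_sub]

omit [Fintype V] in
theorem thmL_line_C_mul (a : ℝ) (q : MvPolynomial V ℝ) (ξ η : V → ℝ) :
    line (C a * q) ξ η = Polynomial.C a * line q ξ η := by
  unfold line; rw [map_mul]; simp [Polynomial.algebraMap_eq]

omit [Fintype V] in
theorem thmL_line_sum {κ : Type*} (S : Finset κ) (f : κ → MvPolynomial V ℝ) (ξ η : V → ℝ) :
    line (∑ k ∈ S, f k) ξ η = ∑ k ∈ S, line (f k) ξ η := by
  unfold line; rw [map_sum]

open Classical in
/-- the family of `Theorem L`, in terms of linear forms -/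
theorem thmL_core (b : ι → V → ℝ) (I : Finset ι) :
    ∀ (W : Submodule ℝ (V → ℝ)) (J : Finset ι → Prop)
    (_ : ∀ Z Z', Z ⊆ Z' → Z' ⊆ I → J Z → J Z')
    (_ : ∀ Z ⊆ I, ∀ k ∈ I, ¬ J Z → J (insert k Z) →
      ∃ w ∈ W, (∀ j ∈ Z, thmL_lf (b j) w = 0) ∧ thmL_lf (b k) w ≠ 0)
    (p : MvPolynomial V ℝ)
    (_ : ∀ ξ ∈ W, ∀ η ∈ W, ∀ n,
      (I.filter (fun i => thmL_lf (b i) η ≠ 0)).card
        + (if J (I.filter (fun i => thmL_lf (b i) η = 0)) then 1 else 0) ≤ n →
      (line p ξ η).coeff n = 0),
    ∃ c : Finset ι → ℝ, ∀ y ∈ W,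
      eval y p = ∑ Y ∈ I.powerset.filter (fun Y => J (I \ Y)),
        c Y * ∏ i ∈ Y, thmL_lf (b i) y := by
  induction I using Finset.induction_on with
  | empty =>
    intro W J _ _ p hp
    by_cases hJ : J ∅
    · refine ⟨fun _ => eval 0 p, fun y hy => ?_⟩
      have h1 : ∀ n, 1 ≤ n → (line p 0 y).coeff n = 0 := by
        intro n hn
        exact hp 0 W.zero_mem y hy n (by simpa [hJ] using hn)
      have h2 : line p 0 y = Polynomial.C ((line p 0 y).coeff 0) := by
        ext n
        rcases Nat.eq_zero_or_pos n with rfl | hn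
        · simp
        · rw [h1 n hn, Polynomial.coeff_C, if_neg hn.ne']
      have h3 := thmL_line_eval' p 0 y 1
      have h4 := thmL_line_eval' p 0 y 0
      rw [h2] at h3 h4
      simp only [Polynomial.eval_C, zero_add, one_smul, zero_smul] at h3 h4
      have h5 : eval y p = eval 0 p := by rw [← h3, h4]
      rw [h5]
      simp [hJ]
    · refine ⟨fun _ => 0, fun y hy => ?_⟩
      have h1 := hp y hy y hy 0 (by simp [hJ])
      have h2 := thmL_line_eval' p y y 0
      rw [zero_smul, add_zero, ← Polynomial.coeff_zero_eq_eval_zero, h1] at h2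
      simp [hJ, ← h2]
  | insert i I' hi ih =>
    intro W J hup hP p hp
    have hsub : I' ⊆ insert i I' := Finset.subset_insert _ _
    -- contraction
    obtain ⟨c', hc'⟩ := ih (W ⊓ LinearMap.ker (thmL_lf (b i))) (fun Z => J (insert i Z))
      (fun Z Z' h1 h2 h3 => hup _ _ (Finset.insert_subset_insert _ h1)
        (Finset.insert_subset_insert _ h2) h3)
      (by
        intro Z hZ k hk h1 h2
        rw [Finset.insert_comm] at h2
        obtain ⟨w, hw, hw1, hw2⟩ := hP (insert i Z) (Finset.insert_subset_insert _ hZ) k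
          (hsub hk) h1 h2
        exact ⟨w, ⟨hw, hw1 i (Finset.mem_insert_self _ _)⟩,
          fun j hj => hw1 j (Finset.mem_insert_of_mem hj), hw2⟩)
      p
      (by
        intro ξ hξ η hη n hn
        have hη0 : thmL_lf (b i) η = 0 := hη.2
        refine hp ξ hξ.1 η hη.1 n (le_trans (le_of_eq ?_) hn)
        rw [Finset.filter_insert, Finset.filter_insert, if_neg (not_not.2 hη0), if_pos hη0])
    -- the lifted polynomial
    set S' := I'.powerset.filter (fun Y => J (insert i (I' \ Y))) with hS'
    set p1 : MvPolynomial V ℝ := p - ∑ Y ∈ S', C (c' Y) * ∏ j ∈ Y, thmL_lp (b j) with hp1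
    have hp1ev : ∀ y, eval y p1 = eval y p - ∑ Y ∈ S', c' Y * ∏ j ∈ Y, thmL_lf (b j) y := by
      intro y
      rw [hp1, map_sub, map_sum]
      congr 1
      refine Finset.sum_congr rfl fun Y _ => ?_
      rw [map_mul, eval_C, map_prod]
      congr 1
      exact Finset.prod_congr rfl fun j _ => thmL_eval_lp _ _
    have hp1W : ∀ y ∈ W, thmL_lf (b i) y = 0 → eval y p1 = 0 := by
      intro y hy hy0
      rw [hp1ev, hc' y ⟨hy, hy0⟩, sub_self]
    have hp1d : ∀ ξ ∈ W, ∀ η ∈ W, ∀ n,
      ((insert i I').filter (fun i => thmL_lf (b i) η ≠ 0)).card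
        + (if J ((insert i I').filter (fun i => thmL_lf (b i) η = 0)) then 1 else 0) ≤ n →
      (line p1 ξ η).coeff n = 0 := by
      intro ξ hξ η hη n hn
      rw [hp1, thmL_line_sub, Polynomial.coeff_sub, hp ξ hξ η hη n hn, thmL_line_sum,
        Polynomial.finsetSum_coeff, zero_sub, neg_eq_zero]
      refine Finset.sum_eq_zero fun Y hY => ?_
      rw [hS', Finset.mem_filter, Finset.mem_powerset] at hY
      rw [thmL_line_C_mul, Polynomial.coeff_C_mul]
      refine mul_eq_zero_of_right _ (thmL_mono_coeff b Y ξ η n (lt_of_lt_of_le ?_ hn))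
      have hle : Y.filter (fun i => thmL_lf (b i) η ≠ 0) ⊆
          (insert i I').filter (fun i => thmL_lf (b i) η ≠ 0) :=
        Finset.filter_subset_filter _ (hY.1.trans hsub)
      split_ifs with hJ
      · exact Nat.lt_succ_of_le (Finset.card_le_card hle)
      · rw [add_zero]
        refine Finset.card_lt_card (Finset.ssubset_iff_subset_ne.2 ⟨hle, fun heq => hJ ?_⟩)
        refine hup _ _ ?_ (Finset.filter_subset _ _) hY.2
        intro j hj
        rw [Finset.mem_filter]
        rw [Finset.mem_insert, Finset.mem_sdiff] at hj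
        refine ⟨by rcases hj with rfl | hj <;> simp [*], ?_⟩
        by_contra hne
        have : j ∈ Y.filter (fun i => thmL_lf (b i) η ≠ 0) := by
          rw [heq, Finset.mem_filter]
          exact ⟨by rcases hj with rfl | hj <;> simp [*], hne⟩
        rw [Finset.mem_filter] at this
        rcases hj with rfl | hj
        · exact hi (hY.1 this.1)
        · exact hj.2 this.1
    -- the final combination
    suffices hq : ∃ c'' : Finset ι → ℝ, ∀ y ∈ W, eval y p1 = thmL_lf (b i) y *
        ∑ Y ∈ I'.powerset.filter (fun Y => J (I' \ Y)), c'' Y * ∏ j ∈ Y, thmL_lf (b j) y by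
      obtain ⟨c'', hc''⟩ := hq
      refine ⟨fun Y => if i ∈ Y then c'' (Y.erase i) else c' Y, fun y hy => ?_⟩
      have h1 := hp1ev y
      rw [hc'' y hy] at h1
      have h2 : eval y p = ∑ Y ∈ S', c' Y * ∏ j ∈ Y, thmL_lf (b j) y + thmL_lf (b i) y *
        ∑ Y ∈ I'.powerset.filter (fun Y => J (I' \ Y)), c'' Y * ∏ j ∈ Y, thmL_lf (b j) y := by
        linarith
      rw [h2]
      beta_reduce
      conv_rhs => rw [Finset.sum_filter, Finset.sum_powerset_insert hi]
      conv_lhs => rw [hS', Finset.sum_filter, Finset.sum_filter, Finset.mul_sum]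
      congr 1
      · refine Finset.sum_congr rfl fun Y hY => ?_
        rw [Finset.mem_powerset] at hY
        have hiY : i ∉ Y := fun h => hi (hY h)
        rw [Finset.insert_sdiff_of_notMem _ hiY, if_neg hiY]
      · refine Finset.sum_congr rfl fun Y hY => ?_
        rw [Finset.mem_powerset] at hY
        have hiY : i ∉ Y := fun h => hi (hY h)
        have h3 : insert i I' \ insert i Y = I' \ Y := by
          ext j
          simp only [Finset.mem_sdiff, Finset.mem_insert]
          constructor
          · rintro ⟨h | h, h'⟩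
            · exact absurd (Or.inl h) h'
            · exact ⟨h, fun h'' => h' (Or.inr h'')⟩
          · rintro ⟨h, h'⟩
            refine ⟨Or.inr h, ?_⟩
            rintro (rfl | h'')
            · exact hi h
            · exact h' h''
        rw [h3, if_pos (Finset.mem_insert_self _ _), Finset.erase_insert hiY,
          Finset.prod_insert hiY]
        split_ifs
        · ring
        · rw [mul_zero]
    by_cases hW : ∀ w ∈ W, thmL_lf (b i) w = 0
    · refine ⟨fun _ => 0, fun y hy => ?_⟩
      rw [hp1W y hy (hW y hy), hW y hy, zero_mul]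
    push Not at hW
    obtain ⟨w1, hw1, hw1'⟩ := hW
    obtain ⟨w0, hw0, hw0'⟩ : ∃ w0 ∈ W, thmL_lf (b i) w0 = 1 :=
      ⟨(thmL_lf (b i) w1)⁻¹ • w1, W.smul_mem _ hw1, by
        rw [map_smul, smul_eq_mul, inv_mul_cancel₀ hw1']⟩
    obtain ⟨q, hq⟩ := thmL_div (b i) w0 p1
    have hqe : ∀ y ∈ W, eval y p1 = thmL_lf (b i) y * eval y q := by
      intro y hy
      have h1 := congrArg (eval y) hq
      rw [map_sub, thmL_eval_sub, map_mul, thmL_eval_lp] at h1
      rw [← h1, hp1W (y - thmL_lf (b i) y • w0) (W.sub_mem hy (W.smul_mem _ hw0))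
        (by rw [map_sub, map_smul, hw0']; simp), sub_zero]
    have hql : ∀ ξ ∈ W, ∀ η ∈ W, line p1 ξ η =
        (Polynomial.C (thmL_lf (b i) ξ) + Polynomial.C (thmL_lf (b i) η) * Polynomial.X) *
          line q ξ η := by
      intro ξ hξ η hη
      apply Polynomial.funext
      intro t
      rw [Polynomial.eval_mul, thmL_line_eval', thmL_line_eval',
        hqe _ (W.add_mem hξ (W.smul_mem _ hη)), map_add, map_smul]
      simp only [Polynomial.eval_add, Polynomial.eval_mul, Polynomial.eval_C, Polynomial.eval_X,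
        smul_eq_mul]
      ring
    -- first case
    have case1 : ∀ ξ ∈ W, ∀ η ∈ W, thmL_lf (b i) η ≠ 0 → ∀ n,
      (I'.filter (fun i => thmL_lf (b i) η ≠ 0)).card
        + (if J (I'.filter (fun i => thmL_lf (b i) η = 0)) then 1 else 0) ≤ n →
      (line q ξ η).coeff n = 0 := by
      intro ξ hξ η hη hη0 n hn
      by_contra hne
      have hq0 : line q ξ η ≠ 0 := fun h => hne (by rw [h]; simp)
      have hnd : n ≤ (line q ξ η).natDegree := Polynomial.le_natDegree_of_ne_zero hne
      have hlin : (Polynomial.C (thmL_lf (b i) ξ) + Polynomial.C (thmL_lf (b i) η) *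
          Polynomial.X).natDegree = 1 := by
        rw [add_comm]
        exact Polynomial.natDegree_linear hη0
      have hlin0 : (Polynomial.C (thmL_lf (b i) ξ) + Polynomial.C (thmL_lf (b i) η) *
          Polynomial.X) ≠ 0 := by
        intro h
        rw [h] at hlin
        simp at hlin
      have h1 : (line p1 ξ η).natDegree = 1 + (line q ξ η).natDegree := by
        rw [hql ξ hξ η hη, Polynomial.natDegree_mul hlin0 hq0, hlin]
      have h2 : (line p1 ξ η).coeff (line p1 ξ η).natDegree = 0 := by
        refine hp1d ξ hξ η hη _ ?_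
        rw [Finset.filter_insert, Finset.filter_insert, if_pos hη0, if_neg hη0,
          Finset.card_insert_of_notMem (by simp [hi]), h1]
        omega
      rw [Polynomial.coeff_natDegree, Polynomial.leadingCoeff_eq_zero, hql ξ hξ η hη] at h2
      exact mul_ne_zero hlin0 hq0 h2
    obtain ⟨c'', hc''⟩ := ih W J (fun Z Z' h1 h2 h3 => hup Z Z' h1 (h2.trans hsub) h3)
      (fun Z hZ k hk h1 h2 => hP Z (hZ.trans hsub) k (hsub hk) h1 h2) q
      (by
        intro ξ hξ η hη n hn
        by_cases hη0 : thmL_lf (b i) η = 0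
        swap
        · exact case1 ξ hξ η hη hη0 n hn
        set Z := I'.filter (fun i => thmL_lf (b i) η = 0) with hZ
        by_cases hJ : ¬ J Z ∧ J (insert i Z)
        · obtain ⟨w, hw, hw2, hw3⟩ := hP Z ((Finset.filter_subset _ _).trans hsub) i
            (Finset.mem_insert_self _ _) hJ.1 hJ.2
          obtain ⟨R, hR⟩ := thmL_param q ξ 0 η w n
          have hR0 : R = 0 := by
            refine thmL_zero_of_inf R
              (insert 0 (I'.image (fun j => - thmL_lf (b j) η / thmL_lf (b j) w))) ?_
            intro ε hε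
            rw [Finset.mem_insert, Finset.mem_image, not_or, not_exists] at hε
            obtain ⟨hε0, hε1⟩ := hε
            have hz : ∀ j ∈ I', (thmL_lf (b j) (η + ε • w) = 0 ↔ thmL_lf (b j) η = 0) := by
              intro j hj
              rw [map_add, map_smul, smul_eq_mul]
              constructor
              · intro h
                by_contra hne
                by_cases hjw : thmL_lf (b j) w = 0
                · rw [hjw, mul_zero, add_zero] at h
                  exact hne h
                · refine hε1 j ⟨hj, ?_⟩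
                  rw [div_eq_iff hjw]
                  linarith
              · intro h
                rw [h, hw2 j (by rw [hZ, Finset.mem_filter]; exact ⟨hj, h⟩)]
                simp
            rw [hR ε, smul_zero, add_zero]
            refine case1 ξ hξ (η + ε • w) (W.add_mem hη (W.smul_mem _ hw)) ?_ n ?_
            · rw [map_add, map_smul, hη0, zero_add, smul_eq_mul]
              exact mul_ne_zero hε0 hw3
            · rw [Finset.filter_congr (fun j hj => hz j hj),
                Finset.filter_congr (fun j hj => not_congr (hz j hj))]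
              exact hn
          have := hR 0
          rw [hR0] at this
          simpa using this.symm
        · have hle : (if J (insert i Z) then 1 else 0) ≤ (if J Z then 1 else 0) := by
            split_ifs with h1 h2
            · exact le_rfl
            · exact absurd ⟨h2, h1⟩ hJ
            · simp
            · exact le_rfl
          obtain ⟨R, hR⟩ := thmL_param q ξ w0 η 0 n
          have hR0 : R = 0 := by
            refine thmL_zero_of_inf R {- thmL_lf (b i) ξ} ?_
            intro ε hε
            rw [Finset.mem_singleton] at hε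
            rw [hR ε, smul_zero, add_zero]
            have h1 : (line p1 (ξ + ε • w0) η).coeff n = 0 := by
              refine hp1d _ (W.add_mem hξ (W.smul_mem _ hw0)) η hη n (le_trans ?_ hn)
              rw [Finset.filter_insert, Finset.filter_insert, if_neg (not_not.2 hη0), if_pos hη0]
              exact Nat.add_le_add_left hle _
            rw [hql _ (W.add_mem hξ (W.smul_mem _ hw0)) η hη, hη0, map_zero, zero_mul, add_zero,
              Polynomial.coeff_C_mul, map_add, map_smul, hw0', smul_eq_mul, mul_one] at h1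
            rcases mul_eq_zero.1 h1 with h | h
            · exact absurd (by linarith) hε
            · exact h
          have := hR 0
          rw [hR0] at this
          simpa using this.symm)
    exact ⟨c'', fun y hy => by rw [hqe y hy, hc'' y hy]⟩

end ThmLAux

open Classical in
/-- Module A (Theorem L). -/
theorem thmL {V ι : Type*} [Fintype V] (b : ι → V → ℝ) (I : Finset ι)
    (W : Submodule ℝ (V → ℝ)) (J : Finset ι → Prop)
    (hup : ∀ Z Z', Z ⊆ Z' → Z' ⊆ I → J Z → J Z')
    (hP : ∀ Z ⊆ I, ∀ k ∈ I, ¬ J Z → J (insert k Z) →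
      ∃ w ∈ W, (∀ j ∈ Z, ∑ v, b j v * w v = 0) ∧ ∑ v, b k v * w v ≠ 0)
    (p : MvPolynomial V ℝ)
    (hp : ∀ ξ ∈ W, ∀ η ∈ W, ∀ n,
      (I.filter (fun i => ∑ v, b i v * η v ≠ 0)).card
        + (if J (I.filter (fun i => ∑ v, b i v * η v = 0)) then 1 else 0) ≤ n →
      (line p ξ η).coeff n = 0) :
    ∃ c : Finset ι → ℝ, ∀ y ∈ W,
      eval y p = ∑ Y ∈ I.powerset.filter (fun Y => J (I \ Y)),
        c Y * ∏ i ∈ Y, (∑ v, b i v * y v) := by
  refine thmL_core b I W J hup hP p ?_
  intro ξ hξ η hη n hn
  refine hp ξ hξ η hη n ?_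
  convert hn using 2 <;> rfl

end PoolPW
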