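import Pool.Agent.Helper60.PW.Defs2

/-!
Module E2 for MP_124889_co: the centre theorem.
-/

open MvPolynomial

namespace PoolPW

open Classical in
/-- toggles on the cut edges together with the extra toggles -/
theorem cen_toggles {V : Type*} [Fintype V] (M : SimpleGraph V) (T : V → ZMod 2)
    (hT : IsMaxCut M T) (E N : Finset (V × V))
    (hne : ModB.prL ((∏ e ∈ E, ModB.lin (exB T) e) * dPoly M T)
      ((∏ n ∈ N, (X n.1 - X n.2)) * dPoly M T) ≠ 0) :
    ∃ Y : Finset (V × V), Y ⊆ cutPairs M T ∧ Jfam M T (cutPairs M T \ Y) ∧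
      ∀ (k : V → ℝ) (γ : ℝ), γ ≠ 0 → ∃ z y : V × V → ℝ, (∀ i, z i = 0 ∨ z i = γ) ∧
        (∀ i ∉ Y, z i = 0) ∧ (∀ i, y i = 0 ∨ y i = γ) ∧ (∀ i ∉ E, y i = 0) ∧
        (∀ h ∈ dIn M T, k h.1 + (∑ i, dB i h.1 * z i + ∑ i, exB T i h.1 * y i) ≠
          k h.2 + (∑ i, dB i h.2 * z i + ∑ i, exB T i h.2 * y i)) ∧
        (∀ h ∈ N, k h.1 + (∑ i, dB i h.1 * z i + ∑ i, exB T i h.1 * y i) ≠
          k h.2 + (∑ i, dB i h.2 * z i + ∑ i, exB T i h.2 * y i)) := by
  obtain ⟨cc, hcc⟩ := thmL (V := V) (ι := V × V) dB (cutPairs M T) ⊤ (Jfam M T)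
    (fun Z Z' hZ _ hJ => Jfam_mono M T hZ hJ)
    (by
      intro Z _ k _ hn hJ
      obtain ⟨w, hw1, hw2⟩ := jfam_sep M T Z k hn (by
        refine Jfam_mono M T (fun x hx => ?_) hJ
        simpa only [Finset.mem_insert] using hx)
      refine ⟨w, Submodule.mem_top, ?_, ?_⟩
      · intro j hj
        rw [dB_sum, hw1 j hj, sub_self]
      · rw [dB_sum]
        exact sub_ne_zero.mpr hw2)
    (dPoly M T)
    (by
      intro ξ _ η _ n hn
      apply Polynomial.coeff_eq_zero_of_natDegree_lt
      have h1 := dPoly_line M T ξ η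
      have h2 := dIn_card M T η
      have h3 := maxcut_hyp M T hT η
      have e1 : ((cutPairs M T).filter (fun i => ∑ v, dB i v * η v ≠ 0)) =
          ((cutPairs M T).filter (fun e => η e.1 ≠ η e.2)) := by
        apply Finset.filter_congr
        intro e _
        rw [dB_sum, ne_eq, ne_eq, sub_eq_zero]
      have e2 : ((cutPairs M T).filter (fun i => ∑ v, dB i v * η v = 0)) =
          ((cutPairs M T).filter (fun e => η e.1 = η e.2)) := by
        apply Finset.filter_congr
        intro e _
        rw [dB_sum, sub_eq_zero]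
      rw [e1, e2] at hn
      split_ifs at hn h3 <;> omega)
  set 𝒴 := (cutPairs M T).powerset.filter (fun Y => Jfam M T (cutPairs M T \ Y)) with h𝒴
  have hpoly : dPoly M T = ∑ Y ∈ 𝒴, cc Y • ∏ i ∈ Y, ModB.lin dB i := by
    apply MvPolynomial.funext
    intro y
    rw [hcc y Submodule.mem_top, map_sum]
    apply Finset.sum_congr
    · refine Finset.ext fun Y => ?_
      rw [h𝒴, Finset.mem_filter, Finset.mem_filter]
      refine and_congr_right fun _ => ?_
      constructor
      · intro hJ
        refine Jfam_mono M T (fun x hx => ?_) hJ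
        simpa only [Finset.mem_sdiff] using hx
      · intro hJ
        refine Jfam_mono M T (fun x hx => ?_) hJ
        simpa only [Finset.mem_sdiff] using hx
    intro Y _
    rw [smul_eval, map_prod]
    congr 1
    apply Finset.prod_congr rfl
    intro i _
    simp [ModB.lin]
  have hex : ∃ Y ∈ 𝒴, ModB.prL (∏ i ∈ Y.disjSum E, ModB.lin (Sum.elim dB (exB T)) i)
      ((∏ n ∈ N, (X n.1 - X n.2)) * dPoly M T) ≠ 0 := by
    by_contra hcon
    push Not at hcon
    apply hne
    conv_lhs => rw [show ModB.prL ((∏ e ∈ E, ModB.lin (exB T) e) * dPoly M T) =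
      ModB.prL (∑ Y ∈ 𝒴, cc Y • ∏ i ∈ Y.disjSum E, ModB.lin (Sum.elim dB (exB T)) i) by
        conv_lhs => rw [hpoly]
        congr 1
        rw [Finset.mul_sum]
        apply Finset.sum_congr rfl
        intro Y _
        rw [mul_smul_comm, Finset.prod_disjSum, mul_comm]
        rfl]
    rw [map_sum, LinearMap.sum_apply]
    apply Finset.sum_eq_zero
    intro Y hY
    rw [map_smul, LinearMap.smul_apply, hcon Y hY, smul_zero]
  obtain ⟨Y, hY, hYne⟩ := hex
  rw [h𝒴, Finset.mem_filter, Finset.mem_powerset] at hY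
  refine ⟨Y, hY.1, hY.2, ?_⟩
  intro k γ hγ
  have hprod : ((∏ n ∈ N, (X n.1 - X n.2)) * dPoly M T : MvPolynomial V ℝ) =
      ∏ h ∈ N.disjSum (dIn M T), (X (Sum.elim Prod.fst Prod.fst h) -
        X (Sum.elim Prod.snd Prod.snd h)) := by
    rw [Finset.prod_disjSum]
    rfl
  rw [hprod, ModB.prL_eq] at hYne
  obtain ⟨zz, hz1, hz2, hz3⟩ := toggles (V := V) (ι := (V × V) ⊕ (V × V))
    (κ := (V × V) ⊕ (V × V)) (N.disjSum (dIn M T)) (Sum.elim Prod.fst Prod.fst)
    (Sum.elim Prod.snd Prod.snd) (Sum.elim dB (exB T)) (Y.disjSum E) hYne k γ hγ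
  refine ⟨fun i => zz (Sum.inl i), fun i => zz (Sum.inr i), fun i => hz1 _, ?_, fun i => hz1 _,
    ?_, ?_, ?_⟩
  · intro i hi
    exact hz2 _ (by simpa using hi)
  · intro i hi
    exact hz2 _ (by simpa using hi)
  · intro h hh
    have := hz3 (Sum.inr h) (by simpa using hh)
    rw [Fintype.sum_sum_type, Fintype.sum_sum_type] at this
    exact this
  · intro h hh
    have := hz3 (Sum.inl h) (by simpa using hh)
    rw [Fintype.sum_sum_type, Fintype.sum_sum_type] at this
    exact this

open Classical in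
/-- auxiliary form of `centre` -/
theorem cen_aux {V : Type*} [Fintype V] (M L G : SimpleGraph V) (hG : G = M ⊔ L) (T : V → ZMod 2)
    (hT : IsMaxCut M T) (hML : ∀ u v, M.Adj u v → ¬ L.Adj u v)
    (a z c : ℝ) (hac : a ≠ c) (Φ : ℝ → ZMod 2)
    (h1 : ∀ t, Φ (t + (c - a)) = Φ t) (h2 : ∀ t, Φ (t + (z - a)) = Φ t + 1)
    (κ : V → ℝ)
    (hpar : ∀ u, ∑ v ∈ Finset.univ.filter (fun v => G.Reachable u v),
      (Φ (κ v + a * dg G v) + T v) = 0)
    (E N : Finset (V × V)) (hN : ∀ n ∈ N, T n.1 = T n.2)
    (hne : ModB.prL ((∏ e ∈ E, ModB.lin (exB T) e) * dPoly M T)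
      ((∏ n ∈ N, (X n.1 - X n.2)) * dPoly M T) ≠ 0) :
    ∃ (w : V → V → ℝ) (y : V × V → ℝ), (∀ u v, w u v = w v u) ∧
      (∀ u v, w u v = a ∨ w u v = z ∨ w u v = c) ∧
      (∀ u v, L.Adj u v → w u v ≠ c) ∧
      (∀ v, (∃ u, M.Adj v u) → ∃ u, M.Adj v u ∧ w v u ≠ c) ∧
      (∀ e, y e = 0 ∨ y e = c - a) ∧ (∀ e ∉ E, y e = 0) ∧
      (∀ v, Φ (val G (fun v => κ v + ∑ e ∈ E, inc e v * y e) w v) = T v) ∧
      (∀ u v, M.Adj u v → val G (fun v => κ v + ∑ e ∈ E, inc e v * y e) w u ≠
        val G (fun v => κ v + ∑ e ∈ E, inc e v * y e) w v) ∧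
      (∀ n ∈ N, val G (fun v => κ v + ∑ e ∈ E, inc e v * y e) w n.1 ≠
        val G (fun v => κ v + ∑ e ∈ E, inc e v * y e) w n.2) := by
  obtain ⟨Y, hYI, hJ, htog⟩ := cen_toggles M T hT E N hne
  have hzc : z ≠ c := by
    intro h
    have e1 := h1 0
    have e2 := h2 0
    rw [h, e1] at e2
    have : ∀ x : ZMod 2, x ≠ x + 1 := by decide
    exact this _ e2
  -- the graph of untoggled edges
  set N1 : SimpleGraph V := pairGraph (cutPairs M T \ Y) ⊔ inGraph M T with hN1
  have hNM : N1 ≤ M := by
    intro x y hxy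
    rw [hN1, SimpleGraph.sup_adj] at hxy
    rcases hxy with h | h
    · rcases h.2 with h' | h'
      · have := (Finset.mem_sdiff.mp h').1
        simp only [cutPairs, Finset.mem_filter, Finset.mem_univ, true_and] at this
        exact this.1
      · have := (Finset.mem_sdiff.mp h').1
        simp only [cutPairs, Finset.mem_filter, Finset.mem_univ, true_and] at this
        exact this.1.symm
    · exact h.1
  have hYprop : ∀ x y, (x, y) ∈ Y → M.Adj x y ∧ T x = 0 ∧ T y = 1 := by
    intro x y hxy
    have := hYI hxy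
    simpa only [cutPairs, Finset.mem_filter, Finset.mem_univ, true_and] using this
  have hNY : ∀ u v, N1.Adj u v → (u, v) ∉ Y ∧ (v, u) ∉ Y := by
    intro u v huv
    rw [hN1, SimpleGraph.sup_adj] at huv
    have hI' : ∀ x y, (x, y) ∈ cutPairs M T \ Y → T x = 0 ∧ T y = 1 ∧ (x, y) ∉ Y := by
      intro x y hxy
      have h' := Finset.mem_sdiff.mp hxy
      have := h'.1
      simp only [cutPairs, Finset.mem_filter, Finset.mem_univ, true_and] at this
      exact ⟨this.2.1, this.2.2, h'.2⟩
    rcases huv with h | h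
    · rcases h.2 with h' | h'
      · obtain ⟨g1, g2, g3⟩ := hI' _ _ h'
        refine ⟨g3, fun h4 => ?_⟩
        have := (hYprop _ _ h4).2.1
        rw [g2] at this
        exact absurd this (by decide)
      · obtain ⟨g1, g2, g3⟩ := hI' _ _ h'
        refine ⟨fun h4 => ?_, g3⟩
        have := (hYprop _ _ h4).2.1
        rw [g2] at this
        exact absurd this (by decide)
    · refine ⟨fun h4 => ?_, fun h4 => ?_⟩
      · have := hYprop _ _ h4
        have h5 := h.2
        rw [this.2.1, this.2.2] at h5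
        exact absurd h5 (by decide)
      · have := hYprop _ _ h4
        have h5 := h.2
        rw [this.2.1, this.2.2] at h5
        exact absurd h5 (by decide)
  have hGadj : ∀ u v, G.Adj u v ↔ M.Adj u v ∨ L.Adj u v := by
    intro u v
    rw [hG, SimpleGraph.sup_adj]
  have hreach : ∀ u v, (N1 ⊔ L).Reachable u v ↔ G.Reachable u v := by
    intro u v
    refine ⟨fun h => h.mono (by rw [hG]; exact sup_le_sup_right hNM _), ?_⟩
    rintro ⟨p⟩
    induction p with
    | nil => exact SimpleGraph.Reachable.refl _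
    | cons h p ih =>
      refine SimpleGraph.Reachable.trans ?_ ih
      rw [hGadj] at h
      rcases h with h | h
      · exact (hJ _ _ h.reachable).mono le_sup_left
      · exact SimpleGraph.Adj.reachable (by rw [SimpleGraph.sup_adj]; exact Or.inr h)
  have hN2Y : ∀ u v, (N1 ⊔ L).Adj u v → (u, v) ∉ Y ∧ (v, u) ∉ Y := by
    intro u v huv
    rw [SimpleGraph.sup_adj] at huv
    rcases huv with h | h
    · exact hNY u v h
    · exact ⟨fun h' => hML _ _ (hYprop _ _ h').1 h, fun h' => hML _ _ (hYprop _ _ h').1 h.symm⟩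
  obtain ⟨F, hFN, hF⟩ := exists_join (N1 ⊔ L)
    (fun v => Φ (κ v + a * dg G v) + T v)
    (by
      intro u
      rw [← hpar u]
      apply Finset.sum_congr
      · ext v
        simp only [Finset.mem_filter, Finset.mem_univ, true_and]
        exact hreach u v
      · intro _ _; rfl)
  -- the default labels
  set w0 : V → V → ℝ := fun u v => if F.Adj u v then z else a with hw0
  set ε : V → ℝ := sg T with hε
  obtain ⟨t, y, ht, htY, hy, hyE, htin, htN⟩ := htog
    (fun v => ε v * (κ v + ∑ u ∈ Finset.univ.filter (fun u => G.Adj v u), w0 v u)) (c - a)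
    (sub_ne_zero.mpr hac.symm)
  have hzero1 : ∀ x y, T x ≠ 0 → t (x, y) = 0 := by
    intro x y hx
    apply htY
    intro h
    exact hx (hYprop _ _ h).2.1
  have hzero2 : ∀ x y, T y ≠ 1 → t (x, y) = 0 := by
    intro x y hx
    apply htY
    intro h
    exact hx (hYprop _ _ h).2.2
  have hzero3 : ∀ x y, ¬ M.Adj x y → t (x, y) = 0 := by
    intro x y hx
    apply htY
    intro h
    exact hx (hYprop _ _ h).1
  set w : V → V → ℝ := fun u v => w0 u v + t (u, v) + t (v, u) with hw
  have h01 : ∀ x : ZMod 2, x = 0 ∨ x = 1 := by decide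
  have hsym : ∀ u v, w u v = w v u := by
    intro u v
    simp only [hw, hw0, SimpleGraph.adj_comm]
    ring
  have htoggle : ∀ u v, t (u, v) + t (v, u) = 0 ∨ t (u, v) + t (v, u) = c - a := by
    intro u v
    rcases h01 (T u) with hu | hu
    · have h3 : t (v, u) = 0 := hzero2 v u (by rw [hu]; decide)
      rw [h3, add_zero]
      exact ht _
    · have h3 : t (u, v) = 0 := hzero1 u v (by rw [hu]; decide)
      rw [h3, zero_add]
      exact ht _
  -- the value at a vertex
  have hval : ∀ v, ∑ i, dB i v * t i = ε v *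
      ∑ u ∈ Finset.univ.filter (fun u => G.Adj v u), (t (v, u) + t (u, v)) := by
    intro v
    rw [Fintype.sum_prod_type]
    have hL : ∀ x y, dB (x, y) v * t (x, y) =
        (if v = x then t (x, y) else 0) - (if v = y then t (x, y) else 0) := by
      intro x y
      simp only [dB, sub_mul, ite_mul, one_mul, zero_mul]
    simp_rw [hL, Finset.sum_sub_distrib]
    have hA : ∑ x, ∑ y, (if v = x then t (x, y) else 0) = ∑ y, t (v, y) := by
      rw [Finset.sum_comm]
      apply Finset.sum_congr rfl
      intro y _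
      simp
    have hB : ∑ x, ∑ y, (if v = y then t (x, y) else 0) = ∑ x, t (x, v) := by
      apply Finset.sum_congr rfl
      intro y _
      simp
    rw [hA, hB]
    have hC : ∑ u ∈ Finset.univ.filter (fun u => G.Adj v u), (t (v, u) + t (u, v)) =
        ∑ y, t (v, y) + ∑ x, t (x, v) := by
      rw [← Finset.sum_add_distrib, Finset.sum_filter]
      apply Finset.sum_congr rfl
      intro y _
      split_ifs with h
      · rfl
      · have h' : ¬ M.Adj v y := fun h' => h ((hGadj _ _).2 (Or.inl h'))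
        rw [hzero3 v y h', hzero3 y v (fun h'' => h' h''.symm), add_zero]
    rw [hC]
    rcases h01 (T v) with hv | hv
    · have h3 : ∑ x, t (x, v) = 0 :=
        Finset.sum_eq_zero (fun x _ => hzero2 x v (by rw [hv]; decide))
      simp only [hε, sg, hv, if_true, h3]
      ring
    · have h3 : ∑ y, t (v, y) = 0 :=
        Finset.sum_eq_zero (fun x _ => hzero1 v x (by rw [hv]; decide))
      have h4 : ¬ ((1 : ZMod 2) = 0) := by decide
      simp only [hε, sg, hv, h3, h4, if_false]
      ring
  have hvaly : ∀ v, ∑ i, exB T i v * y i = ε v * ∑ e ∈ E, inc e v * y e := by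
    intro v
    rw [Finset.mul_sum, ← Finset.sum_subset (Finset.subset_univ E)]
    · apply Finset.sum_congr rfl
      intro e _
      simp only [exB, hε]
      ring
    · intro e _ he
      rw [hyE e he, mul_zero]
  set r : V → ℝ := fun v => κ v + ∑ e ∈ E, inc e v * y e with hr
  have hvalw : ∀ v, val G r w v =
      (κ v + ∑ u ∈ Finset.univ.filter (fun u => G.Adj v u), w0 v u) +
      (∑ u ∈ Finset.univ.filter (fun u => G.Adj v u), (t (v, u) + t (u, v)) +
      ∑ e ∈ E, inc e v * y e) := by
    intro v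
    unfold val
    simp only [hw, hr]
    have : ∑ u ∈ Finset.univ.filter (fun u => G.Adj v u), (w0 v u + t (v, u) + t (u, v)) =
      ∑ u ∈ Finset.univ.filter (fun u => G.Adj v u), w0 v u +
      ∑ u ∈ Finset.univ.filter (fun u => G.Adj v u), (t (v, u) + t (u, v)) := by
      rw [← Finset.sum_add_distrib]
      apply Finset.sum_congr rfl
      intro u _
      ring
    rw [this]
    ring
  have hparity : ∀ v, Φ (val G r w v) = T v := by
    intro v
    have hP0 : ∀ (S : Finset (V × V)) (x : ℝ),
        Φ (x + ∑ e ∈ S, inc e v * y e) = Φ x := by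
      intro S
      induction S using Finset.induction_on with
      | empty => intro t; rw [Finset.sum_empty, add_zero]
      | insert x S hx ih =>
        intro t
        rw [Finset.sum_insert hx, ← add_assoc, ih]
        unfold inc
        split_ifs
        · rcases hy x with h | h
          · rw [h, mul_zero, add_zero]
          · rw [h, one_mul, h1]
        · rw [zero_mul, add_zero]
    have hP1 : ∀ (S : Finset V) (x : ℝ),
        Φ (x + ∑ u ∈ S, (t (v, u) + t (u, v))) = Φ x := by
      intro S
      induction S using Finset.induction_on with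
      | empty => intro t; rw [Finset.sum_empty, add_zero]
      | insert x S hx ih =>
        intro t
        rw [Finset.sum_insert hx, ← add_assoc, ih]
        rcases htoggle v x with h | h
        · rw [h, add_zero]
        · rw [h, h1]
    have hP2 : ∀ (S : Finset V) (t : ℝ),
        Φ (t + ∑ u ∈ S, w0 v u) =
          Φ (t + a * S.card) + ((S.filter (fun u => F.Adj v u)).card : ZMod 2) := by
      intro S
      induction S using Finset.induction_on with
      | empty => intro t; simp
      | insert x S hx ih =>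
        intro t
        rw [Finset.sum_insert hx, ← add_assoc, ih, Finset.card_insert_of_notMem hx,
          Finset.filter_insert]
        by_cases hFx : F.Adj v x
        · have e1 : w0 v x = z := by simp [hw0, hFx]
          rw [e1, if_pos hFx, Finset.card_insert_of_notMem
            (fun h => hx (Finset.mem_filter.mp h).1)]
          have e2 : t + z + a * (S.card : ℝ) =
              (t + a * ((S.card + 1 : ℕ) : ℝ)) + (z - a) := by push_cast; ring
          rw [e2, h2]
          push_cast
          ring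
        · have e1 : w0 v x = a := by simp [hw0, hFx]
          rw [e1, if_neg hFx]
          have e2 : t + a + a * (S.card : ℝ) =
              (t + a * ((S.card + 1 : ℕ) : ℝ)) := by push_cast; ring
          rw [e2]
    rw [hvalw, ← add_assoc, hP0, hP1, hP2]
    have hFM : (Finset.univ.filter (fun u => G.Adj v u)).filter (fun u => F.Adj v u) =
        Finset.univ.filter (fun u => F.Adj v u) := by
      ext u
      simp only [Finset.mem_filter, Finset.mem_univ, true_and]
      exact ⟨fun h => h.2, fun h => ⟨by rw [hG]; exact sup_le_sup_right hNM L (hFN h), h⟩⟩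
    rw [hFM, hF v]
    unfold dg
    have : ∀ x y : ZMod 2, x + (x + y) = y := by decide
    exact this _ _
  have hkey : ∀ p q : V, T p = T q →
      ε p * (κ p + ∑ u ∈ Finset.univ.filter (fun u => G.Adj p u), w0 p u) +
        (∑ i, dB i p * t i + ∑ i, exB T i p * y i) ≠
      ε q * (κ q + ∑ u ∈ Finset.univ.filter (fun u => G.Adj q u), w0 q u) +
        (∑ i, dB i q * t i + ∑ i, exB T i q * y i) →
      val G r w p ≠ val G r w q := by
    intro p q hpq h3 heq
    apply h3
    have hexy : ε p = ε q := by simp only [hε, sg, hpq]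
    rw [hval p, hval q, hvaly p, hvaly q, ← mul_add, ← mul_add, ← mul_add, ← mul_add,
      ← hvalw p, ← hvalw q, heq, hexy]
  refine ⟨w, y, hsym, ?_, ?_, ?_, hy, hyE, hparity, ?_, ?_⟩
  · intro u v
    by_cases hFuv : F.Adj u v
    · right; left
      have hn := hN2Y u v (hFN hFuv)
      simp only [hw, hw0, hFuv, if_true, htY _ hn.1, htY _ hn.2, add_zero]
    · have e1 : w u v = a + (t (u, v) + t (v, u)) := by
        simp only [hw, hw0, hFuv, if_false]
        ring
      rcases htoggle u v with h | h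
      · left; rw [e1, h, add_zero]
      · right; right; rw [e1, h]; ring
  · intro u v huv
    have h3 : ¬ M.Adj u v := fun h => hML _ _ h huv
    have h4 : w u v = w0 u v := by
      simp only [hw, hzero3 u v h3, hzero3 v u (fun h => h3 h.symm), add_zero]
    rw [h4]
    simp only [hw0]
    split_ifs
    · exact hzc
    · exact hac
  · rintro v ⟨u, hvu⟩
    have hr : N1.Reachable v u := hJ _ _ hvu.reachable
    obtain ⟨p⟩ := hr
    cases p with
    | nil => exact absurd rfl hvu.ne
    | @cons _ x _ h _ =>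
      refine ⟨x, hNM h, ?_⟩
      have hn := hNY v x h
      have : w v x = w0 v x := by
        simp only [hw, htY _ hn.1, htY _ hn.2, add_zero]
      rw [this]
      simp only [hw0]
      split_ifs
      · exact hzc
      · exact hac
  · intro u v huv
    by_cases hTuv : T u = T v
    · have hne : Fintype.equivFin V u ≠ Fintype.equivFin V v := by
        intro h
        exact huv.ne ((Fintype.equivFin V).injective h)
      rcases lt_or_gt_of_ne hne with h | h
      · exact hkey u v hTuv (htin (u, v) ((mem_dIn M T _).mpr ⟨⟨huv, hTuv⟩, h⟩))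
      · exact (hkey v u hTuv.symm
          (htin (v, u) ((mem_dIn M T _).mpr ⟨⟨huv.symm, hTuv.symm⟩, h⟩))).symm
    · intro heq
      apply hTuv
      rw [← hparity u, ← hparity v, heq]
  · intro n hn
    exact hkey n.1 n.2 (hN n hn) (htN n hn)

open Classical in
/-- Module E2 (centre): generalisation of `feasible` (Pool/Agent/Helper35/PW/D.lean).
`T` is a maximum cut of `M`; the edges of `L` are further edges which only get `a` or `z`;
`E` are extra toggles (edges or half-edges, default label contained in `κ`), `N` extra pairs to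
be separated. -/
theorem centre {V : Type*} [Fintype V] (M L : SimpleGraph V) (T : V → ZMod 2)
    (hT : IsMaxCut M T) (hML : ∀ u v, M.Adj u v → ¬ L.Adj u v)
    (a z c : ℝ) (hac : a ≠ c) (Φ : ℝ → ZMod 2)
    (h1 : ∀ t, Φ (t + (c - a)) = Φ t) (h2 : ∀ t, Φ (t + (z - a)) = Φ t + 1)
    (κ : V → ℝ)
    (hpar : ∀ u, ∑ v ∈ Finset.univ.filter (fun v => (M ⊔ L).Reachable u v),
      (Φ (κ v + a * dg (M ⊔ L) v) + T v) = 0)
    (E N : Finset (V × V)) (hN : ∀ n ∈ N, T n.1 = T n.2)
    (hne : ModB.prL ((∏ e ∈ E, ModB.lin (exB T) e) * dPoly M T)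
      ((∏ n ∈ N, (X n.1 - X n.2)) * dPoly M T) ≠ 0) :
    ∃ (w : V → V → ℝ) (y : V × V → ℝ), (∀ u v, w u v = w v u) ∧
      (∀ u v, w u v = a ∨ w u v = z ∨ w u v = c) ∧
      (∀ u v, L.Adj u v → w u v ≠ c) ∧
      (∀ v, (∃ u, M.Adj v u) → ∃ u, M.Adj v u ∧ w v u ≠ c) ∧
      (∀ e, y e = 0 ∨ y e = c - a) ∧ (∀ e ∉ E, y e = 0) ∧
      (∀ v, Φ (val (M ⊔ L) (fun v => κ v + ∑ e ∈ E, inc e v * y e) w v) = T v) ∧
      (∀ u v, M.Adj u v → val (M ⊔ L) (fun v => κ v + ∑ e ∈ E, inc e v * y e) w u ≠
        val (M ⊔ L) (fun v => κ v + ∑ e ∈ E, inc e v * y e) w v) ∧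
      (∀ n ∈ N, val (M ⊔ L) (fun v => κ v + ∑ e ∈ E, inc e v * y e) w n.1 ≠
        val (M ⊔ L) (fun v => κ v + ∑ e ∈ E, inc e v * y e) w n.2) := by
  refine cen_aux M L (M ⊔ L) rfl T hT hML a z c hac Φ h1 h2 κ ?_ E N hN hne
  intro u
  rw [← hpar u]
  apply Finset.sum_congr
  · ext v
    simp only [Finset.mem_filter]
  · intro _ _; rfl

end PoolPW
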